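import Mathlib

/-!
# Block matrices with nonnegative minors, any threshold

The numerical part of the spine lemma for the threshold `T = p / q ≤ 9 / 25`: a `3 × 3` (`3 × 2`,
`2 × 2`) matrix of natural numbers with nonnegative `2 × 2` minors, total `N`, whose first and last
rows and columns have sum at most `T N`, has a large central entry.
-/

set_option autoImplicit false

namespace Pool.Agent.Helper99.WN

/-- The asymmetric half of `tp33_real`. -/
theorem tp33_half (T b c e f g h i w : ℝ) (hT0 : 0 ≤ T) (hT : T ≤ 9 / 25)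
    (hb : 0 ≤ b) (hc : 0 ≤ c) (he : 0 ≤ e) (hf : 0 ≤ f) (hg : 0 ≤ g) (hi : 0 ≤ i)
    (hw : 2 * w = 1 - 2 * T - e) (hw0 : 0 < w)
    (H : T * e < w * (w + e))
    (h1 : 2 * w ≤ b + h) (h3 : 2 * w ≤ b + c + f)
    (m1 : f * h ≤ e * i) (m2 : c * h ≤ b * i)
    (r : g + h + i ≤ T) (hbf : b ≤ f) (hfw : f < w) : False := by
  -- `(f + e) h ≤ T e`
  have h4 : (f + e) * h ≤ T * e := by nlinarith
  have h5 : (f + e) * (2 * w - f) ≤ T * e := by
    have : 2 * w - f ≤ h := by linarith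
    nlinarith
  have h6 : (w - f) * (w - f - e) > 0 := by nlinarith
  have h7 : e < w - f := by
    have : 0 < w - f := by linarith
    by_contra hcon
    nlinarith
  -- `(b + c) h ≤ b T`
  have h8 : (b + c) * h ≤ b * T := by nlinarith
  have h9 : (2 * w - f) * (2 * w - f) ≤ f * T := by
    have e1 : 2 * w - f ≤ b + c := by linarith
    have e2 : 2 * w - b ≤ h := by linarith
    have e3 : 0 < 2 * w - f := by linarith
    have e4 : 2 * w - f ≤ 2 * w - b := by linarith
    calc (2 * w - f) * (2 * w - f) ≤ (b + c) * h := by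
          apply mul_le_mul e1 (by linarith) e3.le (by linarith)
      _ ≤ b * T := h8
      _ ≤ f * T := mul_le_mul_of_nonneg_right hbf hT0
  obtain ⟨y, hy⟩ : ∃ y, y = 2 * w - f := ⟨_, rfl⟩
  have hfy : f = 2 * w - y := by linarith
  rw [hfy] at h5 h9
  have y0 : w + e < y := by linarith
  have q1 : (2 * w - y + e) * y ≤ T * e := by
    have : 2 * w - (2 * w - y) = y := by ring
    rw [this] at h5; exact h5
  have q2 : y * y ≤ (2 * w - y) * T := by
    have : 2 * w - (2 * w - y) = y := by ring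
    rw [this] at h9; exact h9
  have yp : 0 < y := by linarith
  have q3 : y * y * y ≤ T * (T * e - e * y) := by
    have s1 : y * y * y ≤ (2 * w - y) * T * y := mul_le_mul_of_nonneg_right q2 yp.le
    have s2 : T * ((2 * w - y + e) * y) ≤ T * (T * e) := mul_le_mul_of_nonneg_left q1 hT0
    nlinarith
  obtain ⟨s, hs⟩ : ∃ s, s = w + e := ⟨_, rfl⟩
  have s0 : 0 < s := by linarith
  have sy : s < y := by linarith
  have q4 : s * s * s ≤ T * (T * e - e * s) := by
    have a1 : s * s ≤ y * y := mul_self_le_mul_self s0.le sy.le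
    have a2 : s * s * s ≤ y * y * y := by
      apply mul_le_mul a1 sy.le s0.le (by positivity)
    have a3 : T * e * s ≤ T * e * y := mul_le_mul_of_nonneg_left sy.le (by positivity)
    nlinarith
  have hT2 : T = (1 - (2 * s - e)) / 2 := by
    have : 2 * s = 1 - 2 * T + e := by rw [hs]; linarith
    linarith
  have hl : 7 / 25 + e ≤ 2 * s := by linarith
  rw [hT2] at q4 hT0
  -- `(l + e)^3 ≤ 2 (1 - l) e (1 - 2 l - e)` with `2 s = l + e`
  obtain ⟨t, ht⟩ : ∃ t, t = 2 * s - e - 7 / 25 := ⟨_, rfl⟩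
  have hs2 : s = (t + 7 / 25 + e) / 2 := by linarith
  have t0 : 0 ≤ t := by linarith
  have t1 : t ≤ 18 / 25 := by linarith
  rw [hs2] at q4
  have q5 : (t + 7 / 25 + e) ^ 3 ≤ 2 * (18 / 25 - t) * e * (11 / 25 - 2 * t - e) := by nlinarith
  have q6 : (7 / 25 + e) ^ 3 ≤ (t + 7 / 25 + e) ^ 3 := by gcongr; linarith
  rcases le_total (11 / 25 - 2 * t - e) 0 with h0 | h0
  · have : 2 * (18 / 25 - t) * e * (11 / 25 - 2 * t - e) ≤ 0 :=
      mul_nonpos_of_nonneg_of_nonpos (mul_nonneg (by linarith) he) h0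
    have : 0 < (7 / 25 + e) ^ 3 := by positivity
    linarith
  · have q7 : 2 * (18 / 25 - t) * e * (11 / 25 - 2 * t - e) ≤
        2 * (18 / 25) * e * (11 / 25 - e) := by
      apply mul_le_mul _ (by linarith) h0 (by positivity)
      nlinarith
    nlinarith [sq_nonneg (e - 9 / 100), mul_nonneg he (sq_nonneg (e - 9 / 100))]

/-- Two entries next to a corner are not both large. -/
theorem lt_of_big (T e w x y a : ℝ) (he : 0 ≤ e) (hw0 : 0 < w) (H : T * e < w * (w + e))
    (m : x * y ≤ a * e) (r : a + y ≤ T) (hyw : w ≤ y) : x < w := by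
  by_contra h0
  push Not at h0
  have x1 : x * y + e * y ≤ T * e := by
    have := mul_le_mul_of_nonneg_right r he
    linarith
  have x2 : w * (w + e) ≤ (x + e) * y := by
    calc w * (w + e) = (w + e) * w := by ring
      _ ≤ (x + e) * y := by
        apply mul_le_mul (by linarith) hyw hw0.le (by linarith)
  linarith

/-- The central entry of a `3 × 3` matrix with nonnegative minors (real form). -/
theorem tp33_real (T a b c d e f g h i : ℝ) (hT0 : 0 ≤ T) (hT : T ≤ 9 / 25)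
    (ha : 0 ≤ a) (hb : 0 ≤ b) (hc : 0 ≤ c) (hd : 0 ≤ d) (he : 0 ≤ e) (hf : 0 ≤ f)
    (hg : 0 ≤ g) (hh : 0 ≤ h) (hi : 0 ≤ i)
    (tot : a + b + c + d + e + f + g + h + i = 1)
    (r0 : a + b + c ≤ T) (r2 : g + h + i ≤ T) (c0 : a + d + g ≤ T) (c2 : c + f + i ≤ T)
    (m1 : b * d ≤ a * e) (m2 : f * h ≤ e * i) (m3 : c * d ≤ a * f) (m4 : c * h ≤ b * i)
    (m5 : b * g ≤ a * h) (m6 : f * g ≤ d * i) :
    (1 - 2 * T) ^ 2 ≤ e ^ 2 + 4 * T * e := by
  by_contra hcon
  push Not at hcon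
  obtain ⟨w, hw⟩ : ∃ w, w = (1 - 2 * T - e) / 2 := ⟨_, rfl⟩
  have hw' : 2 * w = 1 - 2 * T - e := by linarith
  have hw0 : 0 < w := by
    have hl : 0 ≤ 1 - 2 * T := by linarith
    have : e ^ 2 < (1 - 2 * T) ^ 2 := by
      have : 0 ≤ 4 * T * e := by positivity
      linarith
    have : e < 1 - 2 * T := lt_of_pow_lt_pow_left₀ 2 hl this
    linarith
  have H : T * e < w * (w + e) := by
    have : w * (w + e) = ((1 - 2 * T) ^ 2 - e ^ 2) / 4 := by rw [hw]; ring
    rw [this]; linarith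
  have h1 : 2 * w ≤ b + h := by linarith
  have h2 : 2 * w ≤ d + f := by linarith
  have h3 : 2 * w ≤ b + c + f := by linarith
  have h3' : 2 * w ≤ d + g + h := by linarith
  rcases lt_or_ge b w with hbw | hbw
  · have hfw : f < w :=
      lt_of_big T e w f h i he hw0 H (by linarith) (by linarith) (by linarith)
    rcases le_total b f with hbf | hbf
    · exact tp33_half T b c e f g h i w hT0 hT hb hc he hf hg hi hw' hw0 H h1 h3 m2 m4 r2 hbf hfw
    · exact tp33_half T f c e b g d a w hT0 hT hf hc he hb hg ha hw' hw0 H (by linarith)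
        (by linarith) (by linarith) (by linarith) (by linarith) hbf hbw
  · have hdw : d < w :=
      lt_of_big T e w d b a he hw0 H (by linarith) (by linarith) hbw
    have hhw : h < w :=
      lt_of_big T e w h f i he hw0 H (by linarith) (by linarith) (by linarith)
    rcases le_total d h with hdh | hdh
    · exact tp33_half T d g e h c f i w hT0 hT hd hg he hh hc hi hw' hw0 H h2
        (by linarith) (by linarith) (by linarith) c2 hdh hhw
    · exact tp33_half T h g e d c b a w hT0 hT hh hg he hd hc ha hw' hw0 H (by linarith)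
        (by linarith) (by linarith) (by linarith) (by linarith) hdh hdw

/-- admissible spine constants (denominator `10 ^ 6`) for the threshold `p / q` -/
structure SpC (p q : ℕ) (c : ℕ → ℕ → ℕ) : Prop where
  q_pos : 0 < q
  hT : 25 * p ≤ 9 * q
  c00 : c 0 0 ≤ 1000000
  c01 : q * c 0 1 + 1000000 * p ≤ 1000000 * q
  c10 : q * c 1 0 + 1000000 * p ≤ 1000000 * q
  c11 : q * c 1 1 + 2000000 * p ≤ 1000000 * q
  c02 : q ^ 2 * c 0 2 ≤ 1000000 * (q - p) ^ 2
  c20 : q ^ 2 * c 2 0 ≤ 1000000 * (q - p) ^ 2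
  c12 : q * (q - p) * c 1 2 ≤ 1000000 * (q - 2 * p) ^ 2
  c21 : q * (q - p) * c 2 1 ≤ 1000000 * (q - 2 * p) ^ 2
  c22 : q ^ 2 * c 2 2 ^ 2 + 4000000 * (p * q) * c 2 2 ≤ 1000000000000 * (q - 2 * p) ^ 2

section

variable (p q C N : ℕ)

/-- Two blockers below, two blockers above. -/
theorem tp33 (a b c d e f g h i : ℕ) (hq : 0 < q) (hT : 25 * p ≤ 9 * q)
    (hC : q ^ 2 * C ^ 2 + 4000000 * (p * q) * C ≤ 1000000000000 * (q - 2 * p) ^ 2)
    (tot : a + b + c + d + e + f + g + h + i = N)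
    (r0 : q * (a + b + c) ≤ p * N) (r2 : q * (g + h + i) ≤ p * N)
    (c0 : q * (a + d + g) ≤ p * N) (c2 : q * (c + f + i) ≤ p * N)
    (m1 : b * d ≤ a * e) (m2 : f * h ≤ e * i) (m3 : c * d ≤ a * f) (m4 : c * h ≤ b * i)
    (m5 : b * g ≤ a * h) (m6 : f * g ≤ d * i) :
    C * N ≤ 1000000 * e := by
  rcases Nat.eq_zero_or_pos N with h0 | h0
  · subst h0; simp
  have hN : (0 : ℝ) < N := by exact_mod_cast h0
  have hq' : (0 : ℝ) < q := by exact_mod_cast hq
  have hTr : (25 : ℝ) * p ≤ 9 * q := by exact_mod_cast hT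
  have hT' : ((p : ℝ) / q) ≤ 9 / 25 := by
    rw [div_le_div_iff₀ hq' (by norm_num)]
    linarith
  have tot' : (a : ℝ) + b + c + d + e + f + g + h + i = N := by exact_mod_cast tot
  have mk : ∀ x : ℕ, q * x ≤ p * N → (x : ℝ) / N ≤ (p : ℝ) / q := by
    intro x hx
    rw [div_le_div_iff₀ hN hq']
    have : (q : ℝ) * x ≤ p * N := by exact_mod_cast hx
    linarith
  have mm : ∀ x y z u : ℕ, x * y ≤ z * u → (x : ℝ) / N * (y / N) ≤ z / N * (u / N) := by
    intro x y z u hx
    rw [div_mul_div_comm, div_mul_div_comm]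
    have : (x : ℝ) * y ≤ z * u := by exact_mod_cast hx
    gcongr
  have key := tp33_real ((p : ℝ) / q) (a / N) (b / N) (c / N) (d / N) (e / N) (f / N) (g / N)
    (h / N) (i / N) (by positivity) hT' (by positivity) (by positivity) (by positivity)
    (by positivity) (by positivity) (by positivity) (by positivity) (by positivity)
    (by positivity)
    (by
      rw [← add_div, ← add_div, ← add_div, ← add_div, ← add_div, ← add_div, ← add_div, ← add_div,
        tot', div_self hN.ne'])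
    (by have := mk _ r0; push_cast at this; rwa [add_div, add_div] at this)
    (by have := mk _ r2; push_cast at this; rwa [add_div, add_div] at this)
    (by have := mk _ c0; push_cast at this; rwa [add_div, add_div] at this)
    (by have := mk _ c2; push_cast at this; rwa [add_div, add_div] at this)
    (mm _ _ _ _ m1) (mm _ _ _ _ m2) (mm _ _ _ _ m3) (mm _ _ _ _ m4) (mm _ _ _ _ m5)
    (mm _ _ _ _ m6)
  have h2p : 2 * p ≤ q := by omega
  have hC' : (q : ℝ) ^ 2 * C ^ 2 + 4000000 * (p * q) * C ≤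
      1000000000000 * ((q : ℝ) - 2 * p) ^ 2 := by
    have h1 : ((q ^ 2 * C ^ 2 + 4000000 * (p * q) * C : ℕ) : ℝ) ≤
        ((1000000000000 * (q - 2 * p) ^ 2 : ℕ) : ℝ) := by exact_mod_cast hC
    push_cast [Nat.cast_sub h2p] at h1
    exact h1
  obtain ⟨T, hTd⟩ : ∃ T, T = (p : ℝ) / q := ⟨_, rfl⟩
  obtain ⟨x, hx⟩ : ∃ x, x = (e : ℝ) / N := ⟨_, rfl⟩
  obtain ⟨y, hy⟩ : ∃ y, y = (C : ℝ) / 1000000 := ⟨_, rfl⟩
  have hT0 : 0 ≤ T := by rw [hTd]; positivity
  have hx0 : 0 ≤ x := by rw [hx]; positivity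
  have hy0 : 0 ≤ y := by rw [hy]; positivity
  rw [← hTd, ← hx] at key
  have hyT : y ^ 2 + 4 * T * y ≤ (1 - 2 * T) ^ 2 := by
    have h1 : (1000000000000 * (q : ℝ) ^ 2) * (y ^ 2 + 4 * T * y) =
        (q : ℝ) ^ 2 * C ^ 2 + 4000000 * (p * q) * C := by
      rw [hy, hTd]
      field_simp
      ring
    have h2 : (1000000000000 * (q : ℝ) ^ 2) * (1 - 2 * T) ^ 2 =
        1000000000000 * ((q : ℝ) - 2 * p) ^ 2 := by
      rw [hTd]
      field_simp
    rw [← h1, ← h2] at hC'
    exact le_of_mul_le_mul_left hC' (by positivity)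
  have hyx : y ≤ x := by
    by_contra hcon
    push Not at hcon
    have h3 : x ^ 2 < y ^ 2 := by nlinarith
    have h4 : 4 * T * x ≤ 4 * T * y := mul_le_mul_of_nonneg_left hcon.le (by positivity)
    linarith
  rw [hy, hx, div_le_div_iff₀ (by norm_num) hN] at hyx
  have : (C : ℝ) * N ≤ 1000000 * e := by linarith
  exact_mod_cast this

/-- One blocker below, two blockers above: rows `-, 0, +`, columns `0, +`. -/
theorem tp32 (b c e f h i : ℕ) (hq : 0 < q) (h2p : 2 * p < q)
    (hC : q * (q - p) * C ≤ 1000000 * (q - 2 * p) ^ 2)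
    (tot : b + c + e + f + h + i = N)
    (r0 : q * (b + c) ≤ p * N) (r2 : q * (h + i) ≤ p * N)
    (c2 : q * (c + f + i) ≤ p * N)
    (m2 : f * h ≤ e * i) :
    C * N ≤ 1000000 * e := by
  rcases Nat.eq_zero_or_pos N with h0 | h0
  · subst h0; simp
  have hN : (0 : ℝ) < N := by exact_mod_cast h0
  have hq' : (0 : ℝ) < q := by exact_mod_cast hq
  have hp0 : (0 : ℝ) ≤ p := by positivity
  have h2 : (2 : ℝ) * p < q := by exact_mod_cast h2p
  have t' : (b : ℝ) + c + e + f + h + i = N := by exact_mod_cast tot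
  have r0' : (q : ℝ) * (b + c) ≤ p * N := by exact_mod_cast r0
  have r2' : (q : ℝ) * (h + i) ≤ p * N := by exact_mod_cast r2
  have c2' : (q : ℝ) * (c + f + i) ≤ p * N := by exact_mod_cast c2
  have m' : (f : ℝ) * h ≤ e * i := by exact_mod_cast m2
  have hc : (0 : ℝ) ≤ c := by positivity
  have he : (0 : ℝ) ≤ e := by positivity
  have hC' : (q : ℝ) * (q - p) * C ≤ 1000000 * ((q : ℝ) - 2 * p) ^ 2 := by
    have h1 : ((q * (q - p) * C : ℕ) : ℝ) ≤ ((1000000 * (q - 2 * p) ^ 2 : ℕ) : ℝ) := by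
      exact_mod_cast hC
    push_cast [Nat.cast_sub (by omega : p ≤ q), Nat.cast_sub h2p.le] at h1
    exact h1
  obtain ⟨S, hS⟩ : ∃ S : ℝ, S = e + f + h + i := ⟨_, rfl⟩
  have s1 : (q - p) * (N : ℝ) ≤ q * S := by
    rw [hS]
    nlinarith
  have s2 : q * S - p * N ≤ q * (e + h) := by
    rw [hS]
    nlinarith [mul_nonneg hq'.le hc]
  have s3 : q * S - p * N ≤ q * (e + f) := by
    rw [hS]
    nlinarith
  have s0 : 0 ≤ q * S - p * N := by
    have : 0 ≤ ((q : ℝ) - 2 * p) * N := mul_nonneg (by linarith) hN.le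
    linarith
  have s4 : (q * S - p * N) * (q * S - p * N) ≤ q ^ 2 * (e * S) := by
    calc (q * S - p * N) * (q * S - p * N) ≤ (q * (e + h)) * (q * (e + f)) := by
          apply mul_le_mul s2 s3 s0 (by positivity)
      _ = q ^ 2 * ((e + h) * (e + f)) := by ring
      _ ≤ q ^ 2 * (e * S) := by
        apply mul_le_mul_of_nonneg_left _ (by positivity)
        rw [hS]
        nlinarith
  have hSp : 0 < q * S := by
    have : 0 < ((q : ℝ) - p) * N := mul_pos (by linarith) hN
    linarith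
  -- `u = q S - (q - p) N ≥ 0`
  obtain ⟨u, hu⟩ : ∃ u : ℝ, u = q * S - (q - p) * N := ⟨_, rfl⟩
  have u0 : 0 ≤ u := by rw [hu]; linarith
  have e1 : q * S = (q - p) * N + u := by rw [hu]; ring
  have key : ((q : ℝ) - 2 * p) ^ 2 * N * (q * S) ≤ (q - p) * (q ^ 2 * (e * S)) := by
    refine le_trans ?_ (mul_le_mul_of_nonneg_left s4 (by linarith))
    rw [e1]
    have e2 : ((q : ℝ) - p) * N + u - p * N = (q - 2 * p) * N + u := by ring
    rw [e2]
    have hqp : (0 : ℝ) < q - p := by linarith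
    have k1 : 0 ≤ ((q : ℝ) - 2 * p) * (N * u) := mul_nonneg (by linarith) (by positivity)
    have k2 : ((q : ℝ) - p) * (((q - 2 * p) * N + u) * ((q - 2 * p) * N + u)) -
        (q - 2 * p) ^ 2 * N * ((q - p) * N + u) =
        (q - 2 * p) * (N * u) * (2 * (q - p) - (q - 2 * p)) + (q - p) * u ^ 2 := by ring
    have k3 : 0 ≤ ((q : ℝ) - 2 * p) * (N * u) * (2 * (q - p) - (q - 2 * p)) :=
      mul_nonneg k1 (by linarith)
    have k4 : 0 ≤ ((q : ℝ) - p) * u ^ 2 := by positivity
    linarith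
  have key2 : ((q : ℝ) - 2 * p) ^ 2 * N ≤ (q - p) * (q * e) := by
    have h5 : (((q : ℝ) - 2 * p) ^ 2 * N) * (q * S) ≤ ((q - p) * (q * e)) * (q * S) := by
      calc (((q : ℝ) - 2 * p) ^ 2 * N) * (q * S) ≤ (q - p) * (q ^ 2 * (e * S)) := key
        _ = _ := by ring
    exact le_of_mul_le_mul_right h5 hSp
  have key3 : ((q : ℝ) * (q - p)) * (C * N) ≤ ((q : ℝ) * (q - p)) * (1000000 * e) := by
    calc ((q : ℝ) * (q - p)) * (C * N) = (q * (q - p) * C) * N := by ring
      _ ≤ (1000000 * ((q : ℝ) - 2 * p) ^ 2) * N := mul_le_mul_of_nonneg_right hC' hN.le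
      _ = 1000000 * (((q : ℝ) - 2 * p) ^ 2 * N) := by ring
      _ ≤ 1000000 * ((q - p) * (q * e)) := by linarith
      _ = _ := by ring
  have : (C : ℝ) * N ≤ 1000000 * e :=
    le_of_mul_le_mul_left key3 (mul_pos hq' (by linarith))
  exact_mod_cast this

/-- No blocker below, two blockers above (or dually). -/
theorem tp22 (e f h i : ℕ) (hq : 0 < q) (hpq : p ≤ q)
    (hC : q ^ 2 * C ≤ 1000000 * (q - p) ^ 2) (tot : e + f + h + i = N)
    (r2 : q * (h + i) ≤ p * N) (c2 : q * (f + i) ≤ p * N)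
    (m2 : f * h ≤ e * i) :
    C * N ≤ 1000000 * e := by
  rcases Nat.eq_zero_or_pos N with h0 | h0
  · subst h0; simp
  have hN : (0 : ℝ) < N := by exact_mod_cast h0
  have hq' : (0 : ℝ) < q := by exact_mod_cast hq
  have hp' : (p : ℝ) ≤ q := by exact_mod_cast hpq
  have t' : (e : ℝ) + f + h + i = N := by exact_mod_cast tot
  have r2' : (q : ℝ) * (h + i) ≤ p * N := by exact_mod_cast r2
  have c2' : (q : ℝ) * (f + i) ≤ p * N := by exact_mod_cast c2
  have m' : (f : ℝ) * h ≤ e * i := by exact_mod_cast m2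
  have he : (0 : ℝ) ≤ e := by positivity
  have hC' : (q : ℝ) ^ 2 * C ≤ 1000000 * ((q : ℝ) - p) ^ 2 := by
    have h1 : ((q ^ 2 * C : ℕ) : ℝ) ≤ ((1000000 * (q - p) ^ 2 : ℕ) : ℝ) := by
      exact_mod_cast hC
    push_cast [Nat.cast_sub hpq] at h1
    exact h1
  have s2 : (q - p) * (N : ℝ) ≤ q * (e + h) := by nlinarith
  have s3 : (q - p) * (N : ℝ) ≤ q * (e + f) := by nlinarith
  have s0 : 0 ≤ (q - p) * (N : ℝ) := mul_nonneg (by linarith) hN.le
  have s4 : ((q - p) * (N : ℝ)) * ((q - p) * N) ≤ q ^ 2 * (e * N) := by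
    calc ((q - p) * (N : ℝ)) * ((q - p) * N) ≤ (q * (e + h)) * (q * (e + f)) := by
          apply mul_le_mul s2 s3 s0 (by positivity)
      _ = q ^ 2 * ((e + h) * (e + f)) := by ring
      _ ≤ q ^ 2 * (e * N) := by
        apply mul_le_mul_of_nonneg_left _ (by positivity)
        rw [← t']
        nlinarith
  have s5 : (((q : ℝ) - p) ^ 2 * N) * N ≤ (q ^ 2 * e) * N := by
    calc (((q : ℝ) - p) ^ 2 * N) * N = ((q - p) * (N : ℝ)) * ((q - p) * N) := by ring
      _ ≤ q ^ 2 * (e * N) := s4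
      _ = _ := by ring
  have s6 : ((q : ℝ) - p) ^ 2 * N ≤ q ^ 2 * e := le_of_mul_le_mul_right s5 hN
  have s7 : (q : ℝ) ^ 2 * (C * N) ≤ q ^ 2 * (1000000 * e) := by
    calc (q : ℝ) ^ 2 * (C * N) = (q ^ 2 * C) * N := by ring
      _ ≤ (1000000 * ((q : ℝ) - p) ^ 2) * N := mul_le_mul_of_nonneg_right hC' hN.le
      _ = 1000000 * (((q : ℝ) - p) ^ 2 * N) := by ring
      _ ≤ 1000000 * (q ^ 2 * e) := by linarith
      _ = _ := by ring
  have : (C : ℝ) * N ≤ 1000000 * e := le_of_mul_le_mul_left s7 (by positivity)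
  exact_mod_cast this

/-- One blocker below, one blocker above: the union bound. -/
theorem tp11 (e x y : ℕ) (hq : 0 < q) (hC : q * C + 2000000 * p ≤ 1000000 * q)
    (tot : N ≤ e + x + y) (hx : q * x ≤ p * N) (hy : q * y ≤ p * N) :
    C * N ≤ 1000000 * e := by
  have h1 : (q * C + 2000000 * p) * N ≤ (1000000 * q) * N := Nat.mul_le_mul_right _ hC
  have h2 : q * N ≤ q * (e + x + y) := Nat.mul_le_mul_left _ tot
  have h3 : q * (C * N) ≤ q * (1000000 * e) := by nlinarith
  exact Nat.le_of_mul_le_mul_left h3 hq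

/-- One blocker. -/
theorem tp01 (e x : ℕ) (hq : 0 < q) (hC : q * C + 1000000 * p ≤ 1000000 * q)
    (tot : N ≤ e + x) (hx : q * x ≤ p * N) :
    C * N ≤ 1000000 * e := by
  have h1 : (q * C + 1000000 * p) * N ≤ (1000000 * q) * N := Nat.mul_le_mul_right _ hC
  have h2 : q * N ≤ q * (e + x) := Nat.mul_le_mul_left _ tot
  have h3 : q * (C * N) ≤ q * (1000000 * e) := by nlinarith
  exact Nat.le_of_mul_le_mul_left h3 hq

end

end Pool.Agent.Helper99.WN
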