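import Mathlib
import Pool.Agent.WN.World
import Pool.Agent.W3.Major
import Pool.Agent.Helper99.W3.Glue
import Pool.Agent.Helper99.W3.IndecC
import Pool.Agent.Helper99.WN.SpineP

/-!
# From posets to worlds, any threshold, width two or three
-/

set_option autoImplicit false

namespace Pool.Agent.Helper99.WN

open Finset Pool.BFT Pool.Agent.W3 Pool.Agent.WN Pool.Agent.Helper1.Balance
  Pool.Agent.Helper8.KS Pool.Agent.Helper99.W3
open scoped Classical

section

variable {V : Type} [Fintype V] [DecidableEq V] {r : V → V → Prop} {pos : V → ℕ} {w : V}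

theorem card_insert_antiW {W : ℕ}
    (hwid : ∀ s : Finset V, (∀ a ∈ s, ∀ b ∈ s, a ≠ b → ¬ r a b) → s.card ≤ W)
    {s : Finset V} (hs : ∀ a ∈ s, ∀ b ∈ s, a ≠ b → ¬ r a b)
    (hw : ∀ a ∈ s, ¬ r a w ∧ ¬ r w a ∧ a ≠ w) : s.card + 1 ≤ W := by
  have h1 := hwid (insert w s) (by
    intro a ha b hb hab
    rw [mem_insert] at ha hb
    rcases ha with rfl | ha
    · rcases hb with rfl | hb
      · exact absurd rfl hab
      · exact (hw b hb).2.1
    · rcases hb with rfl | hb
      · exact (hw a ha).1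
      · exact hs a ha b hb hab)
  rwa [card_insert_of_notMem (fun h => (hw w h).2.2 rfl)] at h1

theorem nbl_lt {W : ℕ} (hm : ∀ a b, r a b → pos a ≤ pos b)
    (hwid : ∀ s : Finset V, (∀ a ∈ s, ∀ b ∈ s, a ≠ b → ¬ r a b) → s.card ≤ W) :
    nbl r pos w + 1 ≤ W := by
  rw [nbl_eq]
  exact card_insert_antiW (w := w) hwid (fun _ ha _ hb hab => ys_anti ha hb hab)
    fun _ ha => ⟨(ys_not hm ha).1, (ys_not hm ha).2, ys_ne ha⟩

theorem nab_lt {W : ℕ} (hp : Function.Injective pos) (hm : ∀ a b, r a b → pos a ≤ pos b)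
    (hwid : ∀ s : Finset V, (∀ a ∈ s, ∀ b ∈ s, a ≠ b → ¬ r a b) → s.card ≤ W) :
    nab r pos w + 1 ≤ W := by
  rw [nab_eq]
  exact card_insert_antiW (w := w) hwid (fun _ ha _ hb hab => zs_anti ha hb hab)
    fun _ ha => ⟨(zs_not hp hm ha).1, (zs_not hp hm ha).2, zs_ne ha⟩

end

/-- the numeric conditions on the parameters -/
structure ParOk (P : Par) : Prop where
  w2 : 2 ≤ P.w
  w3 : P.w ≤ 3
  spc : SpC P.tp P.tq P.cst
  cmin : ∀ a < P.w, ∀ b < P.w, P.cmin ≤ P.cst a b

/-- **a world from a poset** -/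
theorem exists_worldP {P : Par} (hP : ParOk P) {n : ℕ} {r : Fin n → Fin n → Prop}
    (hr : IsPoset r) (hw : HasWidth r P.w) (hi : Indec r)
    (hb : balance r < (P.tp : ℝ) / P.tq) : Nonempty (Pool.Agent.WN.World P r) := by
  have hq := hP.spc.q_pos
  have hq' : (0 : ℝ) < P.tq := by exact_mod_cast hq
  have hTr : (25 : ℝ) * P.tp ≤ 9 * P.tq := by exact_mod_cast hP.spc.hT
  have hT' : ((P.tp : ℝ) / P.tq) ≤ 0.36 := by
    rw [div_le_iff₀ hq']
    linarith
  obtain ⟨π, hπ, hmaj⟩ := exists_major' hr (t := (P.tp : ℝ) / P.tq) (by positivity) hT' hb.le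
  rw [Pool.Agent.BFT.mem_LEs] at hπ
  have hp : Function.Injective (fun x : Fin n => ((π x : Fin n) : ℕ)) := fun x y h =>
    π.injective (Fin.val_injective h)
  have hm : ∀ a b, r a b → (fun x : Fin n => ((π x : Fin n) : ℕ)) a ≤
      (fun x : Fin n => ((π x : Fin n) : ℕ)) b := fun a b h => hπ a b h
  have hmaj' : ∀ a b, (fun x : Fin n => ((π x : Fin n) : ℕ)) a <
      (fun x : Fin n => ((π x : Fin n) : ℕ)) b → prob r b a ≤ (P.tp : ℝ) / P.tq :=
    fun a b h => hmaj a b h
  have hwid : ∀ s : Finset (Fin n), (∀ a ∈ s, ∀ b ∈ s, a ≠ b → ¬ r a b) → s.card ≤ P.w := hw.2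
  have hwid3 : ∀ s : Finset (Fin n), (∀ a ∈ s, ∀ b ∈ s, a ≠ b → ¬ r a b) → s.card ≤ 3 :=
    fun s hs => (hwid s hs).trans hP.w3
  refine ⟨{ po := po_of hr, w2 := hP.w2, wid := hwid, anti := ?_, indec := ?_, G := H r,
            e := e r,
            G_pos := fun D _ => H_pos (po_of hr) D, harm := fun D hD h => H_rec hD h,
            e_empty := e_empty r, e_rec := fun D hD h => e_dn_rec hD h,
            haz := fun D E w _ hE h hw hwD => hazard_mono hE h hwD hw,
            pos := fun x => ((π x : Fin n) : ℕ), pos_inj := hp, pos_mono := hm,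
            pos_lt := ?_, maj := ?_, cmin := ?_, spine := ?_ }⟩
  · obtain ⟨⟨s, h1, h2⟩, -⟩ := hw
    exact ⟨s, h2, h1⟩
  · intro X _ h1 h2
    exact hi X (nonempty_iff_ne_empty.2 h1) h2
  · intro a
    rw [Fintype.card_fin]
    exact (π a).isLt
  · intro a b h
    have hne : b ≠ a := by
      rintro rfl
      exact lt_irrefl _ h
    have h1 := sum_le_of_prob hr hne (p := P.tp) (q := P.tq) hq (hmaj' a b h)
    convert h1 using 3
    ext D
    simp [Sx]
  · intro w
    refine hP.cmin _ ?_ _ ?_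
    · have := nbl_lt (w := w) hm hwid
      omega
    · have := nab_lt (w := w) hp hm hwid
      omega
  · exact fun w => spineP hP.spc hr _ hp hm hwid3 hmaj' w

/-- **every finite poset of width `P.w`**, if there is no world -/
theorem balance_of_no_worldP {P : Par} (hP : ParOk P)
    (h : ∀ (n : ℕ) (r : Fin n → Fin n → Prop), Pool.Agent.WN.World P r → False) :
    ∀ (n : ℕ) (r : Fin n → Fin n → Prop), IsPoset r → HasWidth r P.w →
      (P.tp : ℝ) / P.tq ≤ balance r := by
  refine reduce (w := P.w) (Q := fun t => (P.tp : ℝ) / P.tq ≤ t) (fun a b h1 h2 => h2.trans h1) ?_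
  intro n r hr hw hi
  by_contra hcon
  obtain ⟨W⟩ := exists_worldP hP hr hw hi (not_le.1 hcon)
  exact h n r W

theorem deltaW_of_no_worldP {P : Par} (hP : ParOk P)
    (h : ∀ (n : ℕ) (r : Fin n → Fin n → Prop), Pool.Agent.WN.World P r → False) :
    (P.tp : ℝ) / P.tq ≤ deltaW P.w := by
  unfold deltaW
  apply le_csInf
  · refine ⟨_, P.w, fun a b => a = b, ⟨fun _ => rfl, fun _ _ _ h1 h2 => h1.trans h2,
      fun _ _ h _ => h⟩, ⟨⟨Finset.univ, by simp, fun a _ b _ h => h⟩, fun s _ =>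
      (Finset.card_le_univ s).trans (by simp)⟩, rfl⟩
  · rintro t ⟨n, r, h2, h3, rfl⟩
    exact balance_of_no_worldP hP h n r h2 h3

end Pool.Agent.Helper99.WN
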