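import Pool.Agent.WN.World

/-!
# The parameters for width three and the threshold `218/625 = 0.3488`
-/

set_option autoImplicit false

namespace Pool.Agent.Helper99.WN

open Pool.Agent.WN

/-- spine constants for the threshold `218/625` -/
def cst3488 : ℕ → ℕ → ℕ
  | 0, 0 => 1000000
  | 0, 1 => 651200
  | 1, 0 => 651200
  | 1, 1 => 302400
  | 0, 2 => 424061
  | 2, 0 => 424061
  | 1, 2 => 140426
  | 2, 1 => 140426
  | 2, 2 => 62723
  | _, _ => 0

/-- width three, threshold `218/625` -/
def P3488 : Par := ⟨3, 218, 625, cst3488, 62723⟩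

end Pool.Agent.Helper99.WN
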