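import Mathlib
import Pool.Agent.Helper99.W3.Indec

/-!
# A poset of width three with balance constant at most `66/187`

The poset has ten elements and `187` linear extensions; they are enumerated by a function and
counted by the kernel.
-/

set_option autoImplicit false

namespace Pool.Agent.Helper99.WN.Upper

open Finset Pool.Agent.Helper1.Balance Pool.Agent.Helper8.KS Pool.BFT Pool.Agent.Helper99.W3

/-- the strict down-sets -/
def dn (a : Fin 10) : ℕ :=
  match a with
  | 0 => 0
  | 1 => 0
  | 2 => 0x1
  | 3 => 0x1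
  | 4 => 0x7
  | 5 => 0xb
  | 6 => 0x2b
  | 7 => 0x6b
  | 8 => 0x6f
  | 9 => 0xff

/-- the order -/
def r (x y : Fin 10) : Prop := x = y ∨ (dn y).testBit x = true

instance : DecidableRel r := fun x y =>
  inferInstanceAs (Decidable (x = y ∨ (dn y).testBit x = true))

theorem r_poset : IsPoset r := by
  refine ⟨by decide +kernel, by decide +kernel, by decide +kernel⟩

/-- the chains -/
def ch (a : Fin 10) : Fin 3 :=
  match a with
  | 1 => 1
  | 4 => 1
  | 2 => 2
  | 8 => 2
  | _ => 0

theorem ch_chain : ∀ a b : Fin 10, ch a = ch b → r a b ∨ r b a := by decide +kernel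

theorem r_width : HasWidth r 3 := by
  constructor
  · refine ⟨{1, 2, 3}, by decide, ?_⟩
    unfold IsAnti
    decide +kernel
  · intro s hs
    have h1 : (s.image ch).card = s.card := by
      refine Finset.card_image_of_injOn fun a ha b hb hab => ?_
      by_contra hne
      rcases ch_chain a b hab with h | h
      · exact hs a ha b hb hne h
      · exact hs b hb a ha (Ne.symm hne) h
    rw [← h1]
    exact (Finset.card_le_univ _).trans (by simp)

/-- all ways to continue from the set `u` (a mask) by `k` elements -/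
def gen : ℕ → ℕ → List (List (Fin 10))
  | 0, _ => [[]]
  | k + 1, u => (List.finRange 10).flatMap fun (a : Fin 10) =>
      cond (!(u.testBit (a : ℕ)) && Nat.beq (Nat.land (dn a) u) (dn a))
        ((gen k (Nat.lor u (Nat.shiftLeft 1 (a : ℕ)))).map (List.cons a)) []

/-- `l` can be added to `u` -/
def Ok : ℕ → List (Fin 10) → Prop
  | _, [] => True
  | u, a :: l => u.testBit (a : ℕ) = false ∧ Nat.land (dn a) u = dn a ∧
      Ok (Nat.lor u (Nat.shiftLeft 1 (a : ℕ))) l

theorem mem_gen : ∀ (k u : ℕ) (l : List (Fin 10)), l ∈ gen k u ↔ l.length = k ∧ Ok u l := by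
  intro k
  induction k with
  | zero =>
    intro u l
    rw [gen, List.mem_singleton]
    constructor
    · rintro rfl
      exact ⟨rfl, trivial⟩
    · rintro ⟨h, -⟩
      exact List.length_eq_zero_iff.1 h
  | succ k ih =>
    intro u l
    rw [gen, List.mem_flatMap]
    constructor
    · rintro ⟨a, -, h⟩
      rcases hc : (!(u.testBit (a : ℕ)) && Nat.beq (Nat.land (dn a) u) (dn a)) with _ | _
      · rw [hc] at h
        simp at h
      · rw [hc, cond_true, List.mem_map] at h
        obtain ⟨l', hl', rfl⟩ := h
        obtain ⟨h1, h2⟩ := (ih _ _).1 hl'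
        rw [Bool.and_eq_true, Bool.not_eq_true'] at hc
        exact ⟨by rw [List.length_cons, h1], hc.1, Nat.eq_of_beq_eq_true hc.2, h2⟩
    · rintro ⟨h, ho⟩
      rcases l with _ | ⟨a, l⟩
      · simp at h
      · obtain ⟨h1, h2, h3⟩ := ho
        refine ⟨a, List.mem_finRange a, ?_⟩
        have hb : Nat.beq (Nat.land (dn a) u) (dn a) = true := by
          rw [h2]
          exact Nat.beq_refl _
        rw [h1, hb]
        simp only [Bool.not_false, Bool.and_self, cond_true]
        exact List.mem_map.2 ⟨l, (ih _ _).2 ⟨by simpa using h, h3⟩, rfl⟩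

theorem testBit_add (u : ℕ) (a b : Fin 10) :
    (Nat.lor u (Nat.shiftLeft 1 a)).testBit b = (u.testBit b || decide (a = b)) := by
  have h1 : Nat.lor u (Nat.shiftLeft 1 a) = u ||| 1 <<< (a : ℕ) := rfl
  rw [h1, Nat.testBit_or, Nat.testBit_shiftLeft]
  congr 1
  by_cases h : a = b
  · subst h
    simp
  · have h2 : (a : ℕ) ≠ b := fun h' => h (Fin.ext h')
    simp only [h, decide_false]
    by_cases h3 : (b : ℕ) ≥ a
    · have h4 : 1 ≤ (b : ℕ) - a := by omega
      have h5 : Nat.testBit 1 ((b : ℕ) - a) = false := by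
        refine Nat.testBit_lt_two_pow ?_
        calc 1 < 2 ^ 1 := by norm_num
          _ ≤ 2 ^ ((b : ℕ) - a) := Nat.pow_le_pow_right (by norm_num) h4
      rw [h5]
      simp
    · simp [h3]

theorem land_sub {a b : Fin 10} {u : ℕ} (h : Nat.land (dn a) u = dn a)
    (hb : (dn a).testBit b = true) : u.testBit b = true := by
  have h1 : dn a &&& u = dn a := h
  rw [← h1, Nat.testBit_and, Bool.and_eq_true] at hb
  exact hb.2

theorem ok_imp : ∀ (l : List (Fin 10)) (u : ℕ), Ok u l →
    (∀ a ∈ l, u.testBit a = false) ∧ l.Nodup ∧ l.Pairwise fun a b => ¬ r b a := by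
  intro l
  induction l with
  | nil =>
    intro u _
    simp
  | cons a l ih =>
    rintro u ⟨h1, h2, h3⟩
    obtain ⟨k1, k2, k3⟩ := ih _ h3
    have k1' : ∀ b ∈ l, u.testBit b = false ∧ a ≠ b := by
      intro b hb
      have := k1 b hb
      rw [testBit_add, Bool.or_eq_false_iff, decide_eq_false_iff_not] at this
      exact this
    refine ⟨?_, ?_, ?_⟩
    · intro b hb
      rcases List.mem_cons.1 hb with rfl | hb
      · exact h1
      · exact (k1' b hb).1
    · exact List.nodup_cons.2 ⟨fun h => (k1' a h).2 rfl, k2⟩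
    · refine List.pairwise_cons.2 ⟨fun b hb hr => ?_, k3⟩
      rcases hr with rfl | hr
      · exact (k1' b hb).2 rfl
      · have := land_sub h2 hr
        rw [(k1' b hb).1] at this
        exact absurd this (by simp)

theorem dn_lt : ∀ a : Fin 10, dn a < 2 ^ 10 ∧ (dn a).testBit a = false := by decide +kernel

theorem imp_ok : ∀ (l : List (Fin 10)) (u : ℕ), l.Nodup → (∀ a ∈ l, u.testBit a = false) →
    (∀ a : Fin 10, u.testBit a = true ∨ a ∈ l) → (l.Pairwise fun a b => ¬ r b a) → Ok u l := by
  intro l
  induction l with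
  | nil =>
    intro u _ _ _ _
    trivial
  | cons a l ih =>
    intro u h1 h2 h3 h4
    rw [List.nodup_cons] at h1
    rw [List.pairwise_cons] at h4
    refine ⟨h2 a (by simp), ?_, ih _ h1.2 ?_ ?_ h4.2⟩
    · show dn a &&& u = dn a
      apply Nat.eq_of_testBit_eq
      intro i
      rw [Nat.testBit_and]
      rcases hi : (dn a).testBit i with _ | _
      · simp
      · have hi10 : i < 10 := by
          by_contra hcon
          have h5 := Nat.ge_two_pow_of_testBit hi
          have h6 : 2 ^ 10 ≤ 2 ^ i := Nat.pow_le_pow_right (by norm_num) (by omega)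
          have := (dn_lt a).1
          omega
        rcases h3 ⟨i, hi10⟩ with h5 | h5
        · simpa using h5
        · rcases List.mem_cons.1 h5 with h6 | h6
          · have h7 : i = (a : ℕ) := congrArg Fin.val h6
            rw [h7, (dn_lt a).2] at hi
            exact absurd hi (by simp)
          · exact absurd (Or.inr hi : r ⟨i, hi10⟩ a) (h4.1 _ h6)
    · intro b hb
      rw [testBit_add, Bool.or_eq_false_iff, decide_eq_false_iff_not]
      refine ⟨h2 b (by simp [hb]), ?_⟩
      rintro rfl
      exact h1.1 hb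
    · intro b
      rw [testBit_add, Bool.or_eq_true, decide_eq_true_eq]
      rcases h3 b with h5 | h5
      · exact Or.inl (Or.inl h5)
      · rcases List.mem_cons.1 h5 with h6 | h6
        · exact Or.inl (Or.inr h6.symm)
        · exact Or.inr h6

theorem LL_eq : LL r univ = (gen 10 0).toFinset := by
  ext l
  rw [mem_LL, List.mem_toFinset, mem_gen]
  constructor
  · rintro ⟨h1, h2, h3⟩
    have h4 : l.length = 10 := by
      rw [← List.toFinset_card_of_nodup h1, h2]
      simp
    refine ⟨h4, imp_ok l 0 h1 (by simp) (fun a => Or.inr ?_) h3⟩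
    rw [← List.mem_toFinset, h2]
    exact Finset.mem_univ a
  · rintro ⟨h1, h2⟩
    obtain ⟨-, k2, k3⟩ := ok_imp l 0 h2
    refine ⟨k2, ?_, k3⟩
    refine Finset.eq_univ_of_card _ ?_
    rw [List.toFinset_card_of_nodup k2, h1]
    simp

theorem gen_nodup : (gen 10 0).Nodup := by decide +kernel

theorem gen_length : (gen 10 0).length = 187 := by decide +kernel

theorem LL_card : (LL r univ).card = 187 := by
  rw [LL_eq, List.toFinset_card_of_nodup gen_nodup, gen_length]

/-- the counts -/
theorem counts : ∀ x y : Fin 10, ¬ r x y → ¬ r y x →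
    ((gen 10 0).countP fun l => decide (l.idxOf x < l.idxOf y)) ≤ 66 ∨
    ((gen 10 0).countP fun l => decide (l.idxOf y < l.idxOf x)) ≤ 66 := by
  decide +kernel

theorem prob_le {x y : Fin 10}
    (h : ((gen 10 0).countP fun l => decide (l.idxOf x < l.idxOf y)) ≤ 66) :
    prob r x y ≤ 66 / 187 := by
  rw [prob_eq_list, LL_card]
  have h1 : cnt (LL r univ) (fun l => l.idxOf x < l.idxOf y) ≤ 66 := by
    unfold cnt
    rw [LL_eq]
    refine le_trans ?_ h
    rw [List.countP_eq_length_filter]
    refine le_trans (Finset.card_le_card (t := ((gen 10 0).filter fun l =>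
      decide (l.idxOf x < l.idxOf y)).toFinset) ?_) (List.toFinset_card_le _)
    intro l hl
    simp only [Finset.mem_filter, List.mem_toFinset] at hl
    simp only [List.mem_toFinset, List.mem_filter, decide_eq_true_eq]
    exact hl
  have h2 : (cnt (LL r univ) (fun l => l.idxOf x < l.idxOf y) : ℝ) ≤ 66 := by exact_mod_cast h1
  push_cast
  gcongr

theorem balance_le : balance r ≤ 66 / 187 := by
  unfold balance
  refine Real.sSup_le ?_ (by norm_num)
  rintro t ⟨x, y, h1, h2, rfl⟩
  rcases counts x y h1 h2 with h | h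
  · exact (min_le_left _ _).trans (prob_le h)
  · exact (min_le_right _ _).trans (prob_le h)

/-- **upper bound** -/
theorem deltaW_three_le : deltaW 3 ≤ 66 / 187 := by
  refine le_trans ?_ balance_le
  unfold deltaW
  apply csInf_le
  · refine ⟨0, ?_⟩
    rintro d ⟨n, r, _, _, rfl⟩
    unfold balance
    refine Real.sSup_nonneg ?_
    rintro t ⟨x, y, -, -, rfl⟩
    have h1 : ∀ x y, 0 ≤ prob r x y := fun x y => by
      unfold prob
      positivity
    exact le_min (h1 _ _) (h1 _ _)
  · exact ⟨10, r, r_poset, r_width, rfl⟩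

end Pool.Agent.Helper99.WN.Upper
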