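import Mathlib
import Pool.Agent.Helper99.WN.GlueP
import Pool.Agent.Helper99.WN.ParDef
import Pool.Agent.Helper99.WN.Upper

/-!
# Width three, threshold `218/625 = 0.3488`: the final statement if there is no world
-/

set_option autoImplicit false

namespace Pool.Agent.Helper99.WN

open Pool.Agent.WN Pool.Agent.Helper1.Balance

theorem parOk3488 : ParOk P3488 where
  w2 := by decide
  w3 := by decide
  spc :=
    { q_pos := by decide
      hT := by decide
      c00 := by decide
      c01 := by decide
      c10 := by decide
      c11 := by decide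
      c02 := by decide
      c20 := by decide
      c12 := by decide
      c21 := by decide
      c22 := by decide }
  cmin := by decide

/-- the final statement for the threshold `218/625` -/
theorem final3488
    (h : ∀ (n : ℕ) (r : Fin n → Fin n → Prop), Pool.Agent.WN.World P3488 r → False) :
    (∀ (n : ℕ) (r : Fin n → Fin n → Prop), IsPoset r → HasWidth r 3 →
      (218 : ℝ) / 625 ≤ balance r) ∧
    (218 : ℝ) / 625 ≤ deltaW 3 ∧ deltaW 3 ≤ 66 / 187 ∧ deltaW 2 < deltaW 3 := by
  have h1 := balance_of_no_worldP parOk3488 h
  have h2 := deltaW_of_no_worldP parOk3488 h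
  have h3 := Pool.Agent.Helper99.W3.deltaW_two
  have e1 : ((P3488.tp : ℝ) / P3488.tq) = 218 / 625 := by
    unfold P3488
    norm_num
  have e2 : P3488.w = 3 := rfl
  rw [e1] at h1 h2
  rw [e2] at h1 h2
  refine ⟨h1, h2, Upper.deltaW_three_le, ?_⟩
  have : (1 : ℝ) / 3 < 218 / 625 := by norm_num
  linarith

end Pool.Agent.Helper99.WN
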